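import Pool.Agent.H75.QA.TargetsU
import Pool.Agent.H34.QA.HGX

/-!
# QA, module HGXU: hypergraphs with both kinds of expansion, explicit arity

The counting is that of helper34 (module HGX).
-/

set_option autoImplicit false

namespace Pool.Agent.H33.QA

open Finset Pool.Agent.H68.AC Pool.Agent.H75.QA Pool.Agent.H34.QA

lemma small_gamma (γ r : ℕ) (hγ : 1 ≤ γ) (hr : 2 * (1 + γ) ≤ r) :
    (γ : ℝ) * Real.exp (1 + γ) * (1 / 16) ^ r ≤ 1 / 4 := by
  have h1 : (γ : ℝ) ≤ 2 ^ (1 + γ) := by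
    have : γ < 2 ^ (1 + γ) := lt_of_lt_of_le (Nat.lt_two_pow_self (n := γ))
      (Nat.pow_le_pow_right (by norm_num) (by omega))
    exact_mod_cast this.le
  have h2 : Real.exp (1 + γ) ≤ 3 ^ (1 + γ) := by
    have e1 : Real.exp (1 + γ) = (Real.exp 1) ^ (1 + γ) := by
      rw [← Real.exp_nat_mul]
      congr 1
      push_cast
      ring
    rw [e1]
    apply pow_le_pow_left₀ (Real.exp_pos _).le
    have := Real.exp_one_lt_d9
    linarith
  have h3 : (1 / 16 : ℝ) ^ r ≤ (1 / 256) ^ (1 + γ) := by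
    calc (1 / 16 : ℝ) ^ r ≤ (1 / 16) ^ (2 * (1 + γ)) :=
          pow_le_pow_of_le_one (by norm_num) (by norm_num) hr
      _ = (1 / 256) ^ (1 + γ) := by
          rw [pow_mul]
          norm_num
  calc (γ : ℝ) * Real.exp (1 + γ) * (1 / 16) ^ r
      ≤ 2 ^ (1 + γ) * 3 ^ (1 + γ) * (1 / 256) ^ (1 + γ) := by
        gcongr
    _ = (6 / 256) ^ (1 + γ) := by
        rw [← mul_pow, ← mul_pow]
        norm_num
    _ ≤ (6 / 256) ^ 1 := pow_le_pow_of_le_one (by norm_num) (by norm_num) (by omega)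
    _ ≤ 1 / 4 := by norm_num

theorem HGXU : T_HGXU := by
  classical
  intro β hβ0 hβ1
  obtain ⟨M, hM⟩ := exists_pow_lt_of_lt_one (show (0:ℝ) < 1 / 16 by norm_num) hβ1
  refine ⟨max (M : ℝ) 3, lt_of_lt_of_le (by norm_num) (le_max_right _ _), ?_⟩
  intro δ γ r0 k hδ hγδ hr0 hr0' hk
  have hM' : (M : ℝ) ≤ δ * r0 := (le_max_left _ _).trans hr0
  have h3 : 3 * (1 + γ) ≤ r0 := by
    have h1 : (3 : ℝ) * (1 + γ) ≤ max (M : ℝ) 3 * (1 + γ) :=
      mul_le_mul_of_nonneg_right (le_max_right _ _) (by positivity)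
    have h2 : ((3 * (1 + γ) : ℕ) : ℝ) ≤ r0 := by
      push_cast
      linarith
    exact_mod_cast h2
  obtain ⟨r, rfl⟩ : ∃ r : ℕ, r0 = r + 1 + γ := ⟨r0 - 1 - γ, by omega⟩
  have hr2 : 2 * (1 + γ) ≤ r := by omega
  have hγ0 : (0 : ℝ) ≤ γ := Nat.cast_nonneg γ
  have hk0 : (0 : ℝ) < k := by exact_mod_cast hk
  by_contra hcon
  push Not at hcon
  have hcov : (univ : Finset (Fin k → Fin (r + 1 + γ) → Fin k)) ⊆
      (univ.filter fun e => ¬ Expd e ⌊β * k⌋₊ ⌊δ * k⌋₊) ∪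
      (univ.filter fun e => ¬ Expg e γ ⌊δ * k⌋₊) := by
    intro e _
    rw [mem_union, mem_filter, mem_filter]
    by_cases h : Expd e ⌊β * k⌋₊ ⌊δ * k⌋₊
    · right
      exact ⟨mem_univ _, hcon e h⟩
    · left
      exact ⟨mem_univ _, h⟩
  have htot : ((k : ℝ) ^ ((r + 1 + γ) * k)) ≤
      ((univ.filter fun e : Fin k → Fin (r + 1 + γ) → Fin k =>
        ¬ Expd e ⌊β * k⌋₊ ⌊δ * k⌋₊).card : ℝ) +
      ((univ.filter fun e : Fin k → Fin (r + 1 + γ) → Fin k =>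
        ¬ Expg e γ ⌊δ * k⌋₊).card : ℝ) := by
    have h1 := (card_le_card hcov).trans (card_union_le _ _)
    rw [card_univ, Fintype.card_fun, Fintype.card_fun, Fintype.card_fin, Fintype.card_fin,
      ← pow_mul] at h1
    exact_mod_cast h1
  have hP : (0 : ℝ) < (k : ℝ) ^ ((r + 1 + γ) * k) := by positivity
  have b1 := bad_one β δ hβ0 hβ1 k (r + 1 + γ)
  have b1' : (4 * (β ^ δ) ^ (r + 1 + γ)) ^ k ≤ 1 / 4 := by
    have h1 : (β ^ δ) ^ (r + 1 + γ) ≤ 1 / 16 := by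
      calc (β ^ δ) ^ (r + 1 + γ) = β ^ (δ * ((r + 1 + γ : ℕ) : ℝ)) := by
            rw [← Real.rpow_natCast, ← Real.rpow_mul hβ0.le]
        _ ≤ β ^ (M : ℝ) := Real.rpow_le_rpow_of_exponent_ge hβ0 hβ1.le hM'
        _ = β ^ M := Real.rpow_natCast _ _
        _ ≤ 1 / 16 := hM.le
    have hx0 : 0 < β ^ δ := Real.rpow_pos_of_pos hβ0 δ
    have h2 : 4 * (β ^ δ) ^ (r + 1 + γ) ≤ 1 / 4 := by linarith
    calc (4 * (β ^ δ) ^ (r + 1 + γ)) ^ k ≤ (1 / 4) ^ k := pow_le_pow_left₀ (by positivity) h2 k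
      _ ≤ (1 / 4) ^ 1 := pow_le_pow_of_le_one (by norm_num) (by norm_num) hk
      _ = 1 / 4 := pow_one _
  have b2 : ((univ.filter fun e : Fin k → Fin (r + 1 + γ) → Fin k =>
        ¬ Expg e γ ⌊δ * k⌋₊).card : ℝ) ≤ (k : ℝ) ^ ((r + 1 + γ) * k) * (1 / 3) := by
    rcases Nat.eq_zero_or_pos γ with h0 | hpos
    · have h1 : (univ.filter fun e : Fin k → Fin (r + 1 + γ) → Fin k =>
        ¬ Expg e γ ⌊δ * k⌋₊) = ∅ := by
        rw [filter_eq_empty_iff]
        intro e _ h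
        apply h
        intro H _
        have h2 : γ * H.card = 0 := by simp [h0]
        rw [h2]
        exact Nat.zero_le _
      rw [h1, card_empty, Nat.cast_zero]
      positivity
    · refine (bad_two δ γ hpos hδ hγδ k r hk).trans ?_
      apply mul_le_mul_of_nonneg_left _ hP.le
      exact geom_third _ (by positivity) (small_gamma γ r hpos hr2) _
  have b3 : (k : ℝ) ^ ((r + 1 + γ) * k) * (4 * (β ^ δ) ^ (r + 1 + γ)) ^ k
      ≤ (k : ℝ) ^ ((r + 1 + γ) * k) * (1 / 4) := mul_le_mul_of_nonneg_left b1' hP.le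
  linarith

end Pool.Agent.H33.QA
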