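import Pool.Agent.H75.QA.TargetsU
import Pool.Agent.H34.QA.PARX
import Pool.Agent.H36.AC.PARU

/-!
# QA, module PARXU: the parameters, uniformly in the depth

The structure follows the modules PARX of helper34 and PARU of helper36.
-/

set_option autoImplicit false

namespace Pool.Agent.H33.QA

open Finset Filter Pool.Agent.H68.AC Pool.Agent.H75.QA Pool.Agent.H34.QA Pool.Agent.H36.AC

/-- PARXU: the parameters, uniformly in the depth. -/
theorem PARXU : T_PARXU := by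
  intro C ε hε hε1
  refine ⟨1 - ε / 4, by linarith, by linarith, fun c₀ hc₀ => ?_⟩
  obtain ⟨K0, hK0⟩ := exists_nat_ge (96 * c₀ / ε)
  obtain ⟨K1, hK1⟩ := exists_nat_ge (5 * c₀)
  set b : ℕ := 4 * C + 12 with hb
  refine ⟨b * (K0 + K1 + 2) + b + 1, ?_⟩
  obtain ⟨M, hM⟩ := exists_nat_ge (8 / ε)
  have hbR : (0 : ℝ) < b := by
    have : 0 < b := by omega
    exact_mod_cast this
  have hCR : (0 : ℝ) ≤ C := Nat.cast_nonneg C
  have hE3 : ∀ᶠ n : ℕ in atTop, 4 * (4 * C + 11) / ε ≤ (n : ℝ) :=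
    tendsto_natCast_atTop_atTop.eventually_ge_atTop _
  filter_upwards [log_le_sqrt (ε / (b * (C + 100))) (by positivity),
    log_le_sqrt (ε / (4 * (b + 4 * C))) (by positivity), hE3,
    eventually_ge_atTop (2 ^ (max (C + 11) M))] with n hn1 hn2 hn3 hn4 d hd1 hdn
  set L := Nat.log 2 n with hL
  have hn0 : n ≠ 0 := by
    have : 0 < 2 ^ (max (C + 11) M) := by positivity
    omega
  have hLM : max (C + 11) M ≤ L := by
    rw [hL]
    exact Nat.le_log_of_pow_le (by norm_num) hn4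
  have hLC : C + 11 ≤ L := (le_max_left _ _).trans hLM
  have hML : M ≤ L := (le_max_right _ _).trans hLM
  have hgn : 2 ^ L ≤ n := Nat.pow_log_le_self 2 hn0
  have hng : n < 2 ^ (L + 1) := Nat.lt_pow_succ_log_self (by norm_num) n
  have hgnR : (2 : ℝ) ^ L ≤ n := by exact_mod_cast hgn
  have hngR : (n : ℝ) < 2 * 2 ^ L := by
    have : (n : ℝ) < 2 ^ (L + 1) := by exact_mod_cast hng
    rw [pow_succ] at this; linarith
  have hnR : (0 : ℝ) < n := by exact_mod_cast Nat.pos_of_ne_zero hn0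
  have hn1' : (1 : ℝ) ≤ n := by exact_mod_cast Nat.pos_of_ne_zero hn0
  have hd1R : (1 : ℝ) ≤ d := by exact_mod_cast hd1
  set δ : ℝ := ε / (32 * (2 * d + 1)) with hδ
  have hδ0 : 0 < δ := by positivity
  have hsq : (√(n : ℝ)) ^ 2 = n := Real.sq_sqrt hnR.le
  have hs1 : 1 ≤ √(n : ℝ) := by rw [Real.one_le_sqrt]; exact hn1'
  have hds : (d : ℝ) ≤ √(n : ℝ) := by
    apply Real.le_sqrt_of_sq_le
    exact_mod_cast hdn
  set S : ℝ := √(n : ℝ) with hS
  set k := n / (b * L) with hk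
  have hbL : 0 < b * L := Nat.mul_pos (by omega) (by omega)
  have hkn : k * (b * L) ≤ n := Nat.div_mul_le_self n (b * L)
  have hnk : n < (k + 1) * (b * L) := by
    have := Nat.lt_div_mul_add (a := n) hbL
    rw [add_mul, one_mul]; exact this
  have hnkR : (n : ℝ) < (k + 1) * (b * L) := by exact_mod_cast hnk
  have hbLR : (0 : ℝ) < b * L := by exact_mod_cast hbL
  have h1ε : 1 ≤ 1 / ε := by rw [le_div_iff₀ hε]; linarith
  have hinv : 1 + 1 / δ + (C + 1) ≤ (C + 98) / ε * S := by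
    have e0 : 1 / δ = 32 * (2 * d + 1) / ε := by rw [hδ]; field_simp
    rw [e0]
    have e1 : 1 ≤ 1 / ε * S := by nlinarith
    have e2 : 32 * (2 * (d : ℝ) + 1) / ε ≤ 96 / ε * S := by
      rw [div_mul_eq_mul_div, div_le_div_iff_of_pos_right hε]
      linarith
    have e3 : (C + 98) / ε * S = (C + 2) * (1 / ε * S) + 96 / ε * S := by ring
    have e4 : (C + 2 : ℝ) * 1 ≤ (C + 2) * (1 / ε * S) :=
      mul_le_mul_of_nonneg_left e1 (by positivity)
    linarith
  have hkbig : 1 / δ + (C + 1) < k := by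
    have e1 : (b * L : ℝ) * (1 + 1 / δ + (C + 1)) ≤ n := by
      calc (b * L : ℝ) * (1 + 1 / δ + (C + 1))
          ≤ (b * (ε / (b * (C + 100)) * S)) * ((C + 98) / ε * S) := by
            apply mul_le_mul (mul_le_mul_of_nonneg_left hn1 hbR.le) hinv (by positivity)
              (by positivity)
        _ = (C + 98) / (C + 100) * S ^ 2 := by field_simp
        _ ≤ 1 * S ^ 2 := by
            apply mul_le_mul_of_nonneg_right _ (by positivity)
            rw [div_le_one (by positivity)]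
            linarith
        _ = n := by rw [hsq, one_mul]
    have e2 : (b * L : ℝ) * (1 + 1 / δ + (C + 1)) < (b * L) * (k + 1) := by linarith
    have e3 := lt_of_mul_lt_mul_left e2 hbLR.le
    linarith
  have hδi : 0 < 1 / δ := by positivity
  have hkC : C + 1 ≤ k := by
    have : ((C + 1 : ℕ) : ℝ) ≤ k := by push_cast; linarith
    exact_mod_cast this
  have hδk : 1 ≤ δ * k := by
    have e4 : 1 / δ < k := by linarith
    rw [div_lt_iff₀ hδ0] at e4
    linarith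
  have hk1 : 1 ≤ k := by omega
  have hg2 : (2 : ℝ) ≤ 2 ^ L := by
    calc (2 : ℝ) = 2 ^ 1 := by norm_num
      _ ≤ 2 ^ L := pow_le_pow_right₀ (by norm_num) (by omega)
  have hg9 : (2 : ℝ) ≤ (2 ^ L) ^ (b + 3) := by
    calc (2 : ℝ) ≤ (2 ^ L) ^ 1 := by rw [pow_one]; exact hg2
      _ ≤ (2 ^ L) ^ (b + 3) := pow_le_pow_right₀ (by linarith) (by omega)
  have hp2 : 1 / ((2 : ℝ) ^ L) ^ (b + 3) ≤ 1 / 2 := one_div_le_one_div_of_le (by norm_num) hg9
  set w : ℕ := n ^ C + 8 * n with hw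
  have hw1 : 1 ≤ w := by
    have : 0 < n := Nat.pos_of_ne_zero hn0
    omega
  have hw1R : (1 : ℝ) ≤ w := by exact_mod_cast hw1
  obtain ⟨γ, hγ⟩ : ∃ γ : ℕ, γ = 2 * d + 2 := ⟨_, rfl⟩
  obtain ⟨ra, hra⟩ : ∃ r : ℕ, r = ⌈c₀ / δ⌉₊ := ⟨_, rfl⟩
  obtain ⟨rc, hrc⟩ : ∃ r : ℕ, r = ⌈c₀ * (1 + γ)⌉₊ := ⟨_, rfl⟩
  have hra1 : c₀ ≤ δ * ra := by
    have : c₀ / δ ≤ ra := by rw [hra]; exact Nat.le_ceil _
    rw [div_le_iff₀ hδ0] at this
    linarith
  have hrc1 : c₀ * (1 + γ) ≤ rc := by rw [hrc]; exact Nat.le_ceil _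
  have hra2 : ra ≤ (K0 + 1) * d := by
    have e0 : (ra : ℝ) < c₀ / δ + 1 := by
      rw [hra]; exact Nat.ceil_lt_add_one (by positivity)
    have e1 : c₀ / δ ≤ K0 * d := by
      have : c₀ / δ = 32 * c₀ / ε * (2 * d + 1) := by rw [hδ]; field_simp
      rw [this]
      calc 32 * c₀ / ε * (2 * (d : ℝ) + 1) ≤ 32 * c₀ / ε * (2 * d + d) := by gcongr
        _ = 96 * c₀ / ε * d := by ring
        _ ≤ K0 * d := by gcongr
    have e2 : (ra : ℝ) < ((K0 * d + 1 : ℕ) : ℝ) := by push_cast; linarith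
    have e3 : ra < K0 * d + 1 := by exact_mod_cast e2
    nlinarith
  have hrc2 : rc ≤ (K1 + 1) * d := by
    have e0 : (rc : ℝ) < c₀ * (1 + γ) + 1 := by
      rw [hrc]; exact Nat.ceil_lt_add_one (by positivity)
    have e1 : c₀ * (1 + γ) ≤ K1 * d := by
      rw [hγ]
      push_cast
      calc c₀ * (1 + (2 * (d : ℝ) + 2)) ≤ c₀ * (d + (2 * d + 2 * d)) := by gcongr <;> linarith
        _ = 5 * c₀ * d := by ring
        _ ≤ K1 * d := by gcongr
    have e2 : (rc : ℝ) < ((K1 * d + 1 : ℕ) : ℝ) := by push_cast; linarith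
    have e3 : rc < K1 * d + 1 := by exact_mod_cast e2
    nlinarith
  obtain ⟨r, hr⟩ : ∃ r : ℕ, r = ra + rc := ⟨_, rfl⟩
  have hrd : r ≤ (K0 + K1 + 2) * d := by
    have e : (K0 + K1 + 2) * d = (K0 + 1) * d + (K1 + 1) * d := by ring
    omega
  have hrR : (r : ℝ) = ra + rc := by rw [hr]; push_cast; rfl
  have hra0 : (0 : ℝ) ≤ ra := Nat.cast_nonneg _
  have hrc0 : (0 : ℝ) ≤ rc := Nat.cast_nonneg _
  have hγδ : (γ : ℝ) * δ ≤ 1 / 16 := by
    rw [hγ, hδ]
    push_cast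
    rw [mul_div_assoc', div_le_div_iff₀ (by positivity) (by norm_num)]
    nlinarith
  have hbr : b * (r + 1) + 1 ≤ (b * (K0 + K1 + 2) + b + 1) * d := by
    have e1 : b * (r + 1) ≤ b * ((K0 + K1 + 2) * d + 1) := Nat.mul_le_mul_left b (by omega)
    have e2 : b * 1 ≤ b * d := Nat.mul_le_mul_left b hd1
    have e3 : (b * (K0 + K1 + 2) + b + 1) * d = b * ((K0 + K1 + 2) * d) + b * d + d := by ring
    have e4 : b * ((K0 + K1 + 2) * d + 1) = b * ((K0 + K1 + 2) * d) + b * 1 := by ring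
    omega
  refine ⟨k, b * L, w, r, γ, δ, 1 / (2 ^ L) ^ (b + 3), 1 / (2 ^ L) ^ (b + 3) / (64 * w), hδ0, hγδ,
    ?_, ?_, hk1, hbL, hkn, ?_, ?_, ?_, hw1, by positivity, hp2, by positivity, ?_, ?_, ?_⟩
  · rw [hrR]
    nlinarith
  · rw [hrR]
    linarith
  · calc k * (2 ^ (b * L)) ^ (r + 1) ≤ n * (n ^ b) ^ (r + 1) := by
          apply Nat.mul_le_mul
          · exact Nat.div_le_self _ _
          · apply Nat.pow_le_pow_left
            rw [mul_comm, pow_mul]
            exact Nat.pow_le_pow_left hgn b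
      _ = n ^ (b * (r + 1) + 1) := by ring
      _ ≤ n ^ ((b * (K0 + K1 + 2) + b + 1) * d) := Nat.pow_le_pow_right (by omega) hbr
  · calc (r + 1) * (b * L) + 1 ≤ (b * (r + 1) + 1) * L := by
          have : (b * (r + 1) + 1) * L = (r + 1) * (b * L) + L := by ring
          rw [this]
          omega
      _ ≤ (b * (K0 + K1 + 2) + b + 1) * d * L := Nat.mul_le_mul_right L hbr
  · exact Nat.le_floor (by exact_mod_cast hδk)
  · have : 1 / ((2 : ℝ) ^ L) ^ (b + 3) / (64 * w) ≤ 1 / ((2 : ℝ) ^ L) ^ (b + 3) :=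
      div_le_self (by positivity) (by linarith)
    linarith
  · apply le_of_eq
    field_simp
  · intro s hs
    rw [hγ]
    refine parx_core d C ε hε hε1 n L k ⌊δ * k⌋₊ b w δ (2 ^ L) hb hδ0 ?_ rfl hw hLC ?_ hgnR hngR
      hkC hkn hnk ?_ rfl s hs
    · rw [hδ]
      apply div_le_div_of_nonneg_left hε.le (by positivity)
      nlinarith
    · exact hM.trans (by exact_mod_cast hML)
    · rw [div_le_iff₀ hε] at hn3
      have hSn : S ≤ n := by nlinarith
      have e1 : (b + 4 * C : ℝ) * L ≤ ε * n / 4 := by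
        have e0 : (0 : ℝ) < b + 4 * C := by positivity
        calc (b + 4 * C : ℝ) * L ≤ (b + 4 * C) * (ε / (4 * (b + 4 * C)) * n) := by
              have : (L : ℝ) ≤ ε / (4 * (b + 4 * C)) * n := hn2.trans (by gcongr)
              gcongr
          _ = ε * n / 4 := by field_simp
      linarith

end Pool.Agent.H33.QA
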